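import Pool.Agent.Helper609_SD.Main

/-! # The two completion theorems -/

namespace Pool.Agent.Helper609_SD

open scoped Computability

variable {α : Type} {X : Language α}

/-! ### powers -/

theorem pow_le_star {n : ℕ} {x : List α} (hx : x ∈ X ^ n) : x ∈ X∗ := by
  rw [Language.mem_pow] at hx
  obtain ⟨l, rfl, -, hl⟩ := hx
  exact Language.join_mem_kstar hl

theorem pow_nonempty (hne : ∃ x, x ∈ X) (n : ℕ) : ∃ x, x ∈ X ^ n := by
  obtain ⟨x, hx⟩ := hne
  refine ⟨(List.replicate n x).flatten, ?_⟩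
  rw [Language.mem_pow]
  exact ⟨_, rfl, by simp, fun y hy => by rw [List.eq_of_mem_replicate hy]; exact hx⟩

theorem pow_ne_nil (hX : IsCode X) {n : ℕ} (hn : 0 < n) {x : List α} (hx : x ∈ X ^ n) :
    x ≠ [] := by
  rintro rfl
  rw [Language.mem_pow] at hx
  obtain ⟨l, h1, h2, h3⟩ := hx
  have : l = [] := hX l [] h3 (by simp) (by rw [← h1]; simp)
  rw [this] at h2
  simp at h2
  omega

theorem star_pow {n : ℕ} {x κ : List α} (hx : x ∈ X∗) (hκ : κ ∈ X ^ n) :
    ∃ κ' ∈ X ^ n, ∃ s, x ++ κ = κ' ++ s := by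
  rw [Language.mem_kstar] at hx
  rw [Language.mem_pow] at hκ
  obtain ⟨l, rfl, hl⟩ := hx
  obtain ⟨m, rfl, hm1, hm2⟩ := hκ
  have hall : ∀ y ∈ l ++ m, y ∈ X := fun y hy => (List.mem_append.1 hy).elim (hl y) (hm2 y)
  refine ⟨((l ++ m).take n).flatten, ?_, ((l ++ m).drop n).flatten, ?_⟩
  · rw [Language.mem_pow]
    exact ⟨_, rfl, by simp [hm1], fun y hy => hall y (List.mem_of_mem_take hy)⟩
  · rw [← List.flatten_append, ← List.flatten_append, List.take_append_drop]

theorem pow_star {n : ℕ} {x l : List α} (hl : l ∈ X ^ n) (hx : x ∈ X∗) :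
    ∃ l' ∈ X ^ n, ∃ s, l ++ x = s ++ l' := by
  rw [Language.mem_kstar] at hx
  rw [Language.mem_pow] at hl
  obtain ⟨m, rfl, hm⟩ := hx
  obtain ⟨k, rfl, hk1, hk2⟩ := hl
  have hall : ∀ y ∈ k ++ m, y ∈ X := fun y hy => (List.mem_append.1 hy).elim (hk2 y) (hm y)
  refine ⟨((k ++ m).drop m.length).flatten, ?_, ((k ++ m).take m.length).flatten, ?_⟩
  · rw [Language.mem_pow]
    exact ⟨_, rfl, by simp [hk1], fun y hy => hall y (List.mem_of_mem_drop hy)⟩
  · rw [← List.flatten_append, ← List.flatten_append, List.take_append_drop]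

/-! ### synchronizing powers -/

/-- one-sided synchronization of the words of `X ^ D` -/
def P1 (X : Language α) (D : ℕ) : Prop :=
  ∀ x ∈ X ^ D, ∀ u v : List α, u ++ x ++ v ∈ X∗ → u ++ x ∈ X∗

/-- two-sided synchronization of the words of `X ^ D` -/
def P2 (X : Language α) (D : ℕ) : Prop :=
  ∀ x ∈ X ^ D, ∀ u v : List α, u ++ x ++ v ∈ X∗ → u ++ x ∈ X∗ ∧ x ++ v ∈ X∗

theorem P2.p1 {D : ℕ} (h : P2 X D) : P1 X D := fun x hx u v huv => (h x hx u v huv).1

theorem P1.succ {D : ℕ} (h : P1 X D) : P1 X (D + 1) := by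
  intro x hx u v huv
  rw [pow_succ', Language.mem_mul] at hx
  obtain ⟨x0, hx0, x1, hx1, rfl⟩ := hx
  have := h x1 hx1 (u ++ x0) v (by simpa [List.append_assoc] using huv)
  simpa [List.append_assoc] using this

theorem P2.succ {D : ℕ} (h : P2 X D) : P2 X (D + 1) := by
  intro x hx u v huv
  refine ⟨h.p1.succ x hx u v huv, ?_⟩
  rw [pow_succ, Language.mem_mul] at hx
  obtain ⟨x0, hx0, x1, hx1, rfl⟩ := hx
  have := (h x0 hx0 u (x1 ++ v) (by simpa [List.append_assoc] using huv)).2
  simpa [List.append_assoc] using this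

theorem P1.add {D : ℕ} (h : P1 X D) (k : ℕ) : P1 X (D + k) := by
  induction k with
  | zero => exact h
  | succ k ih => exact ih.succ

theorem P2.add {D : ℕ} (h : P2 X D) (k : ℕ) : P2 X (D + k) := by
  induction k with
  | zero => exact h
  | succ k ih => exact ih.succ

theorem SyncDelay.p1 {d : ℕ} (h : SyncDelay X d) : P1 X (d + d) := by
  intro x hx u v huv
  rw [pow_add, Language.mem_mul] at hx
  obtain ⟨x0, hx0, x1, hx1, rfl⟩ := hx
  have h1 := h x0 hx0 x1 hx1 u v (by simpa [List.append_assoc] using huv)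
  rw [← List.append_assoc]
  exact star_append h1 (pow_le_star hx1)

theorem SyncDelayTwo.p2 {d : ℕ} (h : SyncDelayTwo X d) : P2 X (d + d) := by
  intro x hx u v huv
  rw [pow_add, Language.mem_mul] at hx
  obtain ⟨x0, hx0, x1, hx1, rfl⟩ := hx
  have h1 := h x0 hx0 x1 hx1 u v (by simpa [List.append_assoc] using huv)
  refine ⟨?_, ?_⟩
  · rw [← List.append_assoc]
    exact star_append h1.1 (pow_le_star hx1)
  · rw [List.append_assoc]
    exact star_append (pow_le_star hx0) h1.2

/-! ### the trivial case -/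

/-- the letters -/
def letters (α : Type) : Language α := {w | w.length = 1}

theorem mem_letters {w : List α} : w ∈ letters α ↔ w.length = 1 := Iff.rfl

theorem letters_star (w : List α) : w ∈ (letters α)∗ := by
  rw [Language.mem_kstar]
  refine ⟨w.map (fun a => [a]), ?_, ?_⟩
  · induction w with
    | nil => rfl
    | cons a w ih => rw [List.map_cons, List.flatten_cons, ← ih]; rfl
  · intro y hy
    rw [List.mem_map] at hy
    obtain ⟨a, -, rfl⟩ := hy
    rfl

theorem letters_isCode : IsCode (letters α) := by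
  intro l
  induction l with
  | nil =>
    intro l' _ hl' h
    cases l' with
    | nil => rfl
    | cons a l' =>
      have h1 := hl' a (by simp)
      rw [mem_letters] at h1
      have h2 := congrArg List.length h
      rw [List.flatten_cons, List.length_append, List.flatten_nil, List.length_nil] at h2
      omega
  | cons y m ih =>
    intro l' hl hl' h
    cases l' with
    | nil =>
      have h1 := hl y (by simp)
      rw [mem_letters] at h1
      have h2 := congrArg List.length h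
      rw [List.flatten_cons, List.length_append, List.flatten_nil, List.length_nil] at h2
      omega
    | cons y' m' =>
      have h1 := hl y (by simp)
      have h2 := hl' y' (by simp)
      rw [mem_letters] at h1 h2
      rw [List.flatten_cons, List.flatten_cons] at h
      have h3 := List.append_inj h (h1.trans h2.symm)
      rw [h3.1, ih m' (fun x hx => hl x (by simp [hx])) (fun x hx => hl' x (by simp [hx])) h3.2]

theorem letters_maximal (Z : Language α) (hZ : IsCode Z) (h : letters α ≤ Z) :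
    Z = letters α := by
  apply Set.eq_of_subset_of_subset _ h
  intro z hz
  have h1 := letters_star z
  rw [Language.mem_kstar] at h1
  obtain ⟨l, hl1, hl2⟩ := h1
  have h2 := hZ.eq_one (x := z) hz (fun y hy => h (hl2 y hy)) hl1
  exact hl2 z (by rw [h2]; simp)

theorem letters_rfin : RFin (letters α) := by
  refine ⟨Fin 3, inferInstance, fun u => ⟨min u.length 2, by omega⟩, fun u u' h t => ?_⟩
  simp only [Fin.mk.injEq] at h
  show (u ++ t).length = 1 ↔ (u' ++ t).length = 1
  rw [List.length_append, List.length_append]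
  omega

/-! ### the delay of the completion -/

section Delay

variable {K : Language α} {t : ℕ}

theorem pow_suffix (hX : IsCode X) (W : Windows X K (X ^ t)) {a : List α}
    (ha : a ∈ (base (cpl X K (X ^ t))) ^ t) :
    (a ∈ X ^ t) ∨ a ∈ win K (X ^ t) := by
  have ha' := ha
  rw [Language.mem_pow] at ha
  obtain ⟨l, hl1, hl2, hl3⟩ := ha
  have h1 : a ∈ (base (cpl X K (X ^ t)))∗ := pow_le_star ha'
  rw [W.star] at h1
  rcases h1 with h1 | h1
  · left
    rw [Language.mem_kstar] at h1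
    obtain ⟨m, hm1, hm2⟩ := h1
    have h2 : l = m := W.isCode hX l m hl3 (fun y hy => W.le_base hX (hm2 y hy))
      (by rw [← hl1, hm1])
    rw [Language.mem_pow]
    exact ⟨m, hm1, by rw [← h2]; exact hl2, hm2⟩
  · exact Or.inr h1

theorem cpl_left (W : Windows X K (X ^ t)) {a l s : List α}
    (hl : l ∈ X ^ t) (hs : a = s ++ l) (u v : List α) (h : u ++ a ++ v ∈ cpl X K (X ^ t)) :
    u ++ a ∈ cpl X K (X ^ t) := by
  rcases h with h | ⟨⟨κ, hκ, r, hr⟩, -⟩
  · left
    rw [hs] at h ⊢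
    have := W.l1 l hl (u ++ s) v (by simpa [List.append_assoc] using h)
    simpa [List.append_assoc] using this
  · rcases List.append_eq_append_iff.1 hr with ⟨c, hc1, hc2⟩ | ⟨c, hc1, hc2⟩
    · -- κ = (u ++ a) ++ c
      left
      have h1 : (u ++ s) ++ l ++ c ∈ X∗ := by
        have : (u ++ s) ++ l ++ c = κ := by rw [hc1, hs]; simp [List.append_assoc]
        rw [this]; exact W.kX κ hκ
      have := W.l1 l hl (u ++ s) c h1
      rw [hs]
      simpa [List.append_assoc] using this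
    · -- u ++ a = κ ++ c
      right
      exact ⟨⟨κ, hκ, c, hc1⟩, l, hl, u ++ s, by rw [hs, List.append_assoc]⟩

theorem cpl_right (W : Windows X K (X ^ t)) {a κ s : List α}
    (hκ : κ ∈ K) (hs : a = κ ++ s) (u v : List α) (h : u ++ a ++ v ∈ cpl X K (X ^ t)) :
    a ++ v ∈ cpl X K (X ^ t) := by
  rcases h with h | ⟨-, l, hl, r, hr⟩
  · left
    rw [hs] at h ⊢
    have := (W.k1 κ hκ u (s ++ v) (by simpa [List.append_assoc] using h)).2
    simpa [List.append_assoc] using this
  · rw [List.append_assoc] at hr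
    rcases List.append_eq_append_iff.1 hr with ⟨c, hc1, hc2⟩ | ⟨c, hc1, hc2⟩
    · -- r = u ++ c, a ++ v = c ++ l
      right
      exact ⟨⟨κ, hκ, s ++ v, by rw [hs, List.append_assoc]⟩, l, hl, c, hc2⟩
    · -- u = r ++ c, l = c ++ (a ++ v)
      left
      have h1 : c ++ κ ++ (s ++ v) ∈ X∗ := by
        have : c ++ κ ++ (s ++ v) = l := by rw [hc2, hs]; simp [List.append_assoc]
        rw [this]; exact W.lX l hl
      have := (W.k1 κ hκ c (s ++ v) h1).2
      rw [hs]
      simpa [List.append_assoc] using this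

end Delay

/-! ### two-sided delay -/

theorem windows_two (hX : IsCode X) (hne : ∃ x, x ∈ X) {D : ℕ} (hD : 0 < D) (h : P2 X D) :
    Windows X (X ^ (D + D)) (X ^ (D + D)) where
  kne := pow_nonempty hne _
  lne := pow_nonempty hne _
  kX := fun _ h => pow_le_star h
  lX := fun _ h => pow_le_star h
  k1 := h.add D
  k2 := fun _ hx _ hκ => star_pow hx hκ
  k3 := by
    intro κ hκ u v huv
    rw [pow_add, Language.mem_mul] at hκ
    obtain ⟨κ1, h1, κ2, h2, rfl⟩ := hκ
    have h3 := (h κ1 h1 u (κ2 ++ v) (by simpa [List.append_assoc] using star_base huv)).1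
    have h4 := (h κ2 h2 (u ++ κ1) v (by simpa [List.append_assoc] using star_base huv)).2
    rcases hX.irred h3 h4 (by simpa [List.append_assoc] using huv) with h5 | h5
    · exact pow_ne_nil hX hD h1 (List.append_eq_nil_iff.1 h5).2
    · exact pow_ne_nil hX hD h2 (List.append_eq_nil_iff.1 h5).1
  l1 := (h.add D).p1
  l2 := fun _ hl _ hx => pow_star hl hx

theorem two_sided (hX : IsCode X) (hreg : X.IsRegular) {d : ℕ} (hd : SyncDelayTwo X d) :
    ∃ Y : Language α, X ≤ Y ∧ IsCode Y ∧ Y.IsRegular ∧ (∃ e, SyncDelayTwo Y e) ∧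
      ∀ Z : Language α, IsCode Z → Y ≤ Z → Z = Y := by
  by_cases hne : ∃ x, x ∈ X
  · have hP : P2 X (d + d + 1) := hd.p2.succ
    have W := windows_two hX hne (Nat.succ_pos _) hP
    set t := d + d + 1 + (d + d + 1) with ht
    refine ⟨base (cpl X (X ^ t) (X ^ t)), W.le_base hX, W.isCode hX,
      (windows_rfin (RFin.of_isRegular hreg) ((RFin.of_isRegular hreg).pow t)
        ((RFin.of_isRegular hreg).pow t)).isRegular, ⟨t, ?_⟩, W.maximal hX⟩
    intro x hx y hy u v huv
    rw [W.star] at huv ⊢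
    have hx' : ∃ l ∈ X ^ t, ∃ s, x = s ++ l := by
      rcases pow_suffix hX W hx with h | ⟨-, l, hl, s, hs⟩
      · exact ⟨x, h, [], rfl⟩
      · exact ⟨l, hl, s, hs⟩
    have hy' : ∃ κ ∈ X ^ t, ∃ s, y = κ ++ s := by
      rcases pow_suffix hX W hy with h | ⟨⟨κ, hκ, s, hs⟩, -⟩
      · exact ⟨y, h, [], by simp⟩
      · exact ⟨κ, hκ, s, hs⟩
    obtain ⟨l, hl, s, hs⟩ := hx'
    obtain ⟨κ, hκ, s', hs'⟩ := hy'
    refine ⟨?_, ?_⟩
    · exact cpl_left W hl hs u (y ++ v) (by simpa [List.append_assoc] using huv)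
    · exact cpl_right W hκ hs' (u ++ x) v huv
  · refine ⟨letters α, fun x hx => absurd ⟨x, hx⟩ hne, letters_isCode, letters_rfin.isRegular,
      ⟨0, fun x _ y _ u v _ => ⟨letters_star _, letters_star _⟩⟩, letters_maximal⟩

/-! ### one-sided delay -/

/-- A regular code with one-sided delay has a nonempty message that synchronizes on both sides. -/
theorem exists_sync (hX : IsCode X) (hreg : RFin X) (hne : ∃ x, x ∈ X) {D : ℕ} (hD : 0 < D)
    (h : P1 X D) : ∃ σ : List α, σ ≠ [] ∧ σ ∈ X∗ ∧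
      ∀ u v : List α, u ++ σ ++ v ∈ X∗ → u ++ σ ∈ X∗ ∧ σ ++ v ∈ X∗ := by
  classical
  obtain ⟨M, hM, g, hg⟩ := hreg.star.sFin
  let S : Set (List α) := {σ | ∃ a ∈ X∗, ∃ b ∈ X ^ D, σ = a ++ b}
  let L : List α → Set M := fun σ => {m | ∃ s ∈ X∗, g (s ++ σ) = m}
  have hSmul : ∀ s ∈ X∗, ∀ σ ∈ S, s ++ σ ∈ S := by
    rintro s hs σ ⟨a, ha, b, hb, rfl⟩
    exact ⟨s ++ a, star_append hs ha, b, hb, by rw [List.append_assoc]⟩
  have hSX : ∀ σ ∈ S, σ ∈ X∗ := by
    rintro σ ⟨a, ha, b, hb, rfl⟩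
    exact star_append ha (pow_le_star hb)
  have hSne : ∃ n : ℕ, ∃ σ ∈ S, (L σ).ncard = n := by
    obtain ⟨b, hb⟩ := pow_nonempty hne D
    exact ⟨_, b, ⟨[], Language.nil_mem_kstar _, b, hb, rfl⟩, rfl⟩
  obtain ⟨σ0, hσ0, hn0⟩ := Nat.find_spec hSne
  have hmin : ∀ σ ∈ S, (L σ0).ncard ≤ (L σ).ncard := by
    intro σ hσ
    rw [hn0]
    exact Nat.find_min' hSne ⟨σ, hσ, rfl⟩
  have hsub : ∀ s ∈ X∗, ∀ σ, L (s ++ σ) ⊆ L σ := by
    rintro s hs σ m ⟨s', hs', rfl⟩
    exact ⟨s' ++ s, star_append hs' hs, by rw [List.append_assoc]⟩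
  have heq : ∀ s ∈ X∗, L (s ++ σ0) = L σ0 := fun s hs =>
    Set.eq_of_subset_of_ncard_le (hsub s hs σ0) (hmin _ (hSmul s hs σ0 hσ0)) (Set.toFinite _)
  -- powers
  let pw : ℕ → List α := fun k => (List.replicate k σ0).flatten
  have hpw : ∀ i j, pw (i + j) = pw i ++ pw j := by
    intro i j
    show (List.replicate (i + j) σ0).flatten = _
    rw [List.replicate_add, List.flatten_append]
  have hpw1 : pw 1 = σ0 := by simp [pw]
  have hpwX : ∀ k, pw k ∈ X∗ := by
    intro k
    induction k with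
    | zero => exact Language.nil_mem_kstar _
    | succ k ih => rw [hpw, hpw1]; exact star_append ih (hSX σ0 hσ0)
  obtain ⟨i, j, hij, hgij⟩ := Finite.exists_ne_map_eq_of_infinite (fun k => g (pw k))
  wlog hlt : i < j generalizing i j
  · exact this j i hij.symm hgij.symm (by omega)
  obtain ⟨p, hp, rfl⟩ : ∃ p, 0 < p ∧ j = i + p := ⟨j - i, by omega, by omega⟩
  have hSE0 : SE X∗ (pw i) (pw (i + p)) := hg _ _ hgij
  have hSE1 : ∀ k, i ≤ k → SE X∗ (pw k) (pw (k + p)) := by
    intro k hk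
    obtain ⟨r, rfl⟩ := Nat.exists_eq_add_of_le hk
    have := hSE0.right (pw r)
    rw [← hpw, ← hpw] at this
    rwa [show i + r + p = i + p + r by omega]
  have hSE2 : ∀ m k, i ≤ k → SE X∗ (pw k) (pw (k + m * p)) := by
    intro m
    induction m with
    | zero => intro k _; rw [Nat.zero_mul, Nat.add_zero]; exact fun _ _ => Iff.rfl
    | succ m ih =>
      intro k hk
      have h1 := ih k hk
      have h2 := hSE1 (k + m * p) (by omega)
      have : k + (m + 1) * p = k + m * p + p := by ring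
      rw [this]
      exact h1.trans h2
  set n := (i + 1) * p with hn
  have hin : i ≤ n := by
    have : (i + 1) * 1 ≤ (i + 1) * p := Nat.mul_le_mul_left _ hp
    omega
  have hn1 : 0 < n := by positivity
  have hidem : SE X∗ (pw n) (pw n ++ pw n) := by
    have := hSE2 (i + 1) n hin
    rwa [← hn, hpw] at this
  obtain ⟨n', hn'⟩ : ∃ n', n = n' + 1 := ⟨n - 1, by omega⟩
  have hσS : pw n ∈ S := by
    rw [hn', hpw, hpw1]; exact hSmul _ (hpwX n') σ0 hσ0
  have hL : L (pw n) = L σ0 := by rw [hn', hpw, hpw1]; exact heq _ (hpwX n')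
  refine ⟨pw n, ?_, hpwX n, ?_⟩
  · obtain ⟨a, -, b, hb, hab⟩ := hσS
    rw [hab]
    intro h0
    exact pow_ne_nil hX hD hb (List.append_eq_nil_iff.1 h0).2
  · intro u v huv
    have h1 : u ++ pw n ∈ X∗ := by
      obtain ⟨a, -, b, hb, hab⟩ := hσS
      rw [hab] at huv ⊢
      have := h b hb (u ++ a) v (by simpa [List.append_assoc] using huv)
      simpa [List.append_assoc] using this
    refine ⟨h1, ?_⟩
    have h2 : L ((u ++ pw n) ++ pw n) = L σ0 := by
      have : (u ++ pw n) ++ pw n = ((u ++ pw n) ++ pw n') ++ σ0 := by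
        have h3 : pw n = pw n' ++ σ0 := by rw [hn', hpw, hpw1]
        conv_lhs => rw [h3]
        conv_rhs => rw [h3]
        simp [List.append_assoc]
      rw [this]
      exact heq _ (star_append h1 (hpwX n'))
    have h3 : g (pw n) ∈ L ((u ++ pw n) ++ pw n) := by
      rw [h2, ← hL]
      exact ⟨[], Language.nil_mem_kstar _, rfl⟩
    obtain ⟨s', hs', hs''⟩ := h3
    have h4 : SE X∗ (s' ++ ((u ++ pw n) ++ pw n)) (pw n) := hg _ _ hs''
    have h5 : SE X∗ (s' ++ (u ++ pw n)) (pw n) := by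
      have h6 : SE X∗ ((s' ++ u) ++ pw n) ((s' ++ u) ++ (pw n ++ pw n)) := hidem.left (s' ++ u)
      have e1 : (s' ++ u) ++ pw n = s' ++ (u ++ pw n) := by rw [List.append_assoc]
      have e2 : (s' ++ u) ++ (pw n ++ pw n) = s' ++ ((u ++ pw n) ++ pw n) := by
        simp [List.append_assoc]
      rw [e1, e2] at h6
      exact h6.trans h4
    have h7 := h5 [] v
    have h8 : [] ++ (s' ++ (u ++ pw n)) ++ v ∈ X∗ := by
      have : [] ++ (s' ++ (u ++ pw n)) ++ v = s' ++ (u ++ pw n ++ v) := by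
        simp [List.append_assoc]
      rw [this]
      exact star_append hs' huv
    exact h7.1 h8

/-- left windows for the one-sided case -/
def kOne (X : Language α) (σ : List α) : Language α := X∗ * {σ ++ σ}

theorem mem_kOne {σ κ : List α} : κ ∈ kOne X σ ↔ ∃ x ∈ X∗, κ = x ++ (σ ++ σ) := by
  rw [kOne, Language.mem_mul]
  constructor
  · rintro ⟨x, hx, b, hb, rfl⟩
    have : b = σ ++ σ := hb
    exact ⟨x, hx, by rw [this]⟩
  · rintro ⟨x, hx, rfl⟩
    exact ⟨x, hx, σ ++ σ, rfl, rfl⟩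

theorem windows_one (hX : IsCode X) (hne : ∃ x, x ∈ X) {D : ℕ} (h : P1 X D)
    {σ : List α} (hσ : σ ≠ []) (hσX : σ ∈ X∗)
    (hs : ∀ u v : List α, u ++ σ ++ v ∈ X∗ → u ++ σ ∈ X∗ ∧ σ ++ v ∈ X∗) :
    Windows X (kOne X σ) (X ^ D) where
  kne := ⟨_, mem_kOne.2 ⟨[], Language.nil_mem_kstar _, rfl⟩⟩
  lne := pow_nonempty hne _
  kX := by
    intro κ hκ
    obtain ⟨x, hx, rfl⟩ := mem_kOne.1 hκ
    exact star_append hx (star_append hσX hσX)
  lX := fun _ h => pow_le_star h
  k1 := by
    intro κ hκ u v huv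
    obtain ⟨x, hx, rfl⟩ := mem_kOne.1 hκ
    have h1 := (hs (u ++ x ++ σ) v (by simpa [List.append_assoc] using huv)).1
    have h2 := (hs (u ++ x) (σ ++ v) (by simpa [List.append_assoc] using huv)).2
    refine ⟨by simpa [List.append_assoc] using h1, ?_⟩
    have h3 := star_append hx h2
    simpa [List.append_assoc] using h3
  k2 := by
    intro x hx κ hκ
    obtain ⟨x', hx', rfl⟩ := mem_kOne.1 hκ
    exact ⟨_, mem_kOne.2 ⟨x ++ x', star_append hx hx', rfl⟩, [], by simp [List.append_assoc]⟩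
  k3 := by
    intro κ hκ u v huv
    obtain ⟨x, hx, rfl⟩ := mem_kOne.1 hκ
    have h1 := (hs (u ++ x) (σ ++ v) (by simpa [List.append_assoc] using star_base huv)).1
    have h2 := (hs (u ++ x ++ σ) v (by simpa [List.append_assoc] using star_base huv)).2
    rcases hX.irred h1 h2 (by simpa [List.append_assoc] using huv) with h5 | h5
    · exact hσ (List.append_eq_nil_iff.1 h5).2
    · exact hσ (List.append_eq_nil_iff.1 h5).1
  l1 := h
  l2 := fun _ hl _ hx => pow_star hl hx

theorem one_sided (hX : IsCode X) (hreg : X.IsRegular) {d : ℕ} (hd : SyncDelay X d) :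
    ∃ Y : Language α, X ≤ Y ∧ IsCode Y ∧ Y.IsRegular ∧ (∃ e, SyncDelay Y e) ∧
      ∀ Z : Language α, IsCode Z → Y ≤ Z → Z = Y := by
  by_cases hne : ∃ x, x ∈ X
  · have hP : P1 X (d + d + 1) := hd.p1.succ
    obtain ⟨σ, hσ, hσX, hs⟩ := exists_sync hX (RFin.of_isRegular hreg) hne (Nat.succ_pos _) hP
    have W := windows_one hX hne hP hσ hσX hs
    set t := d + d + 1 with ht
    refine ⟨base (cpl X (kOne X σ) (X ^ t)), W.le_base hX, W.isCode hX,
      (windows_rfin (RFin.of_isRegular hreg) ((RFin.of_isRegular hreg).star.mul (RFin.word _))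
        ((RFin.of_isRegular hreg).pow t)).isRegular, ⟨t, ?_⟩, W.maximal hX⟩
    intro x hx y hy u v huv
    rw [W.star] at huv ⊢
    have hx' : ∃ l ∈ X ^ t, ∃ s, x = s ++ l := by
      rcases pow_suffix hX W hx with h | ⟨-, l, hl, s, hs⟩
      · exact ⟨x, h, [], rfl⟩
      · exact ⟨l, hl, s, hs⟩
    obtain ⟨l, hl, s, hs⟩ := hx'
    exact cpl_left W hl hs u (y ++ v) (by simpa [List.append_assoc] using huv)
  · refine ⟨letters α, fun x hx => absurd ⟨x, hx⟩ hne, letters_isCode, letters_rfin.isRegular,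
      ⟨0, fun x _ y _ u v _ => letters_star _⟩, letters_maximal⟩

end Pool.Agent.Helper609_SD
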