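import Pool.Agent.Helper609_SD.Reg

/-! # Codes, free submonoids, and completion by marked windows -/

namespace Pool.Agent.Helper609_SD

open scoped Computability

variable {α : Type}

/-- `X` is a code: a word has at most one factorization as a product of words of `X`. -/
def IsCode (X : Language α) : Prop :=
  ∀ l l' : List (List α), (∀ x ∈ l, x ∈ X) → (∀ x ∈ l', x ∈ X) → l.flatten = l'.flatten → l = l'

/-- `X` has synchronization delay `d`: whenever `u x y v ∈ X*` with `x, y ∈ X^d`, then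
`u x ∈ X*`. -/
def SyncDelay (X : Language α) (d : ℕ) : Prop :=
  ∀ x ∈ X ^ d, ∀ y ∈ X ^ d, ∀ u v : List α, u ++ x ++ y ++ v ∈ X∗ → u ++ x ∈ X∗

/-- `X` has two-sided synchronization delay `d`: whenever `u x y v ∈ X*` with `x, y ∈ X^d`, then
`u x ∈ X*` and `y v ∈ X*`. -/
def SyncDelayTwo (X : Language α) (d : ℕ) : Prop :=
  ∀ x ∈ X ^ d, ∀ y ∈ X ^ d, ∀ u v : List α, u ++ x ++ y ++ v ∈ X∗ → u ++ x ∈ X∗ ∧ y ++ v ∈ X∗

/-! ### codes -/

theorem IsCode.nil_notMem {X : Language α} (hX : IsCode X) : [] ∉ X := by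
  intro h
  have := hX [[]] [] (by simpa using h) (by simp) (by simp)
  simp at this

theorem IsCode.eq_one {X : Language α} (hX : IsCode X) {x : List α} (hx : x ∈ X)
    {l : List (List α)} (hl : ∀ y ∈ l, y ∈ X) (h : x = l.flatten) : l = [x] :=
  (hX [x] l (by simpa using hx) hl (by simpa using h)).symm

/-- A word of a code is not a product of two nonempty words of `X*`. -/
theorem IsCode.irred {X : Language α} (hX : IsCode X) {a b : List α} (ha : a ∈ X∗) (hb : b ∈ X∗)
    (hab : a ++ b ∈ X) : a = [] ∨ b = [] := by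
  rw [Language.mem_kstar] at ha hb
  obtain ⟨l, rfl, hl⟩ := ha
  obtain ⟨m, rfl, hm⟩ := hb
  have h1 : l ++ m = [l.flatten ++ m.flatten] :=
    hX.eq_one hab (fun y hy => (List.mem_append.1 hy).elim (hl y) (hm y)) (by simp)
  cases l with
  | nil => left; simp
  | cons a l =>
    right
    have h2 := congrArg List.length h1
    rw [List.length_append, List.length_cons, List.length_singleton] at h2
    have : m = [] := by
      apply List.eq_nil_of_length_eq_zero
      omega
    simp [this]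

/-- the submonoid generated by a code is stable -/
theorem IsCode.stable {X : Language α} (hX : IsCode X) {u v w : List α} (hu : u ∈ X∗)
    (hv : v ∈ X∗) (huw : u ++ w ∈ X∗) (hwv : w ++ v ∈ X∗) : w ∈ X∗ := by
  rw [Language.mem_kstar] at hu hv huw hwv
  obtain ⟨lu, rfl, hlu⟩ := hu
  obtain ⟨lv, rfl, hlv⟩ := hv
  obtain ⟨l1, h1, hl1⟩ := huw
  obtain ⟨l2, h2, hl2⟩ := hwv
  have h3 : lu ++ l2 = l1 ++ lv := by
    apply hX
    · intro x hx; exact (List.mem_append.1 hx).elim (hlu x) (hl2 x)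
    · intro x hx; exact (List.mem_append.1 hx).elim (hl1 x) (hlv x)
    · simp [← h1, ← h2]
  rcases List.append_eq_append_iff.1 h3 with ⟨c, hc1, hc2⟩ | ⟨c, hc1, hc2⟩
  · -- l1 = lu ++ c
    rw [Language.mem_kstar]
    refine ⟨c, ?_, fun y hy => hl1 y (by rw [hc1]; simp [hy])⟩
    rw [hc1] at h1
    simpa using h1
  · -- lu = l1 ++ c
    rw [hc1] at h1
    have h4 : w = [] := by
      have := congrArg List.length h1
      rw [List.flatten_append, List.length_append, List.length_append] at this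
      apply List.eq_nil_of_length_eq_zero
      omega
    rw [h4]
    exact Language.nil_mem_kstar _

/-! ### bases of stable submonoids -/

/-- the indecomposable words of `N` -/
def base (N : Language α) : Language α :=
  {y | y ∈ N ∧ y ≠ [] ∧ ∀ a b : List α, a ∈ N → b ∈ N → y = a ++ b → a = [] ∨ b = []}

theorem mem_base {N : Language α} {y : List α} : y ∈ base N ↔
    y ∈ N ∧ y ≠ [] ∧ ∀ a b : List α, a ∈ N → b ∈ N → y = a ++ b → a = [] ∨ b = [] := Iff.rfl

theorem base_star {N : Language α} (h0 : [] ∈ N) (hmul : ∀ a ∈ N, ∀ b ∈ N, a ++ b ∈ N) :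
    (base N)∗ = N := by
  apply Set.eq_of_subset_of_subset
  · intro w hw
    have hw' : w ∈ (base N)∗ := hw
    rw [Language.mem_kstar] at hw'
    obtain ⟨l, rfl, hl⟩ := hw'
    clear hw
    induction l with
    | nil => exact h0
    | cons a l ih =>
      rw [List.flatten_cons]
      exact hmul _ (hl a (by simp)).1 _ (ih (fun y hy => hl y (by simp [hy])))
  · intro w hw
    induction hn : w.length using Nat.strong_induction_on generalizing w with
    | _ n ih =>
      by_cases hw0 : w = []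
      · rw [hw0]; exact Language.nil_mem_kstar _
      by_cases hb : w ∈ base N
      · exact star_base hb
      · rw [mem_base] at hb
        push Not at hb
        obtain ⟨a, b, ha, hb', hab, ha0, hb0⟩ := hb hw hw0
        have h1 := ih a.length (by
          rw [← hn, hab, List.length_append]
          have := List.length_pos_iff.2 hb0
          omega) ha rfl
        have h2 := ih b.length (by
          rw [← hn, hab, List.length_append]
          have := List.length_pos_iff.2 ha0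
          omega) hb' rfl
        rw [hab]
        exact star_append h1 h2

theorem base_isCode {N : Language α} (h0 : [] ∈ N) (hmul : ∀ a ∈ N, ∀ b ∈ N, a ++ b ∈ N)
    (hst : ∀ u v w : List α, u ∈ N → v ∈ N → u ++ w ∈ N → w ++ v ∈ N → w ∈ N) :
    IsCode (base N) := by
  have hfl : ∀ l : List (List α), (∀ x ∈ l, x ∈ base N) → l.flatten ∈ N := by
    intro l hl
    have : l.flatten ∈ (base N)∗ := Language.join_mem_kstar hl
    rwa [base_star h0 hmul] at this
  intro l
  induction l with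
  | nil =>
    intro l' _ hl' h
    cases l' with
    | nil => rfl
    | cons a l' =>
      simp only [List.flatten_nil, List.flatten_cons] at h
      exact absurd (List.append_eq_nil_iff.1 h.symm).1 (hl' a (by simp)).2.1
  | cons y m ih =>
    intro l' hl hl' h
    cases l' with
    | nil =>
      simp only [List.flatten_nil, List.flatten_cons] at h
      exact absurd (List.append_eq_nil_iff.1 h).1 (hl y (by simp)).2.1
    | cons y' m' =>
      simp only [List.flatten_cons] at h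
      have hy := hl y (by simp)
      have hy' := hl' y' (by simp)
      have hm := hfl m (fun x hx => hl x (by simp [hx]))
      have hm' := hfl m' (fun x hx => hl' x (by simp [hx]))
      have key : y = y' := by
        rcases List.append_eq_append_iff.1 h with ⟨c, hc1, hc2⟩ | ⟨c, hc1, hc2⟩
        · -- y' = y ++ c, m.flatten = c ++ m'.flatten
          have hc : c ∈ N := hst y m'.flatten c hy.1 hm' (hc1 ▸ hy'.1) (hc2 ▸ hm)
          rcases hy'.2.2 y c hy.1 hc hc1 with h1 | h1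
          · exact absurd h1 hy.2.1
          · rw [hc1, h1, List.append_nil]
        · have hc : c ∈ N := hst y' m.flatten c hy'.1 hm (hc1 ▸ hy.1) (hc2 ▸ hm')
          rcases hy.2.2 y' c hy'.1 hc hc1 with h1 | h1
          · exact absurd h1 hy'.2.1
          · rw [hc1, h1, List.append_nil]
      subst key
      rw [ih m' (fun x hx => hl x (by simp [hx])) (fun x hx => hl' x (by simp [hx]))
        (List.append_cancel_left h)]

theorem base_rfin {N : Language α} (hN : RFin N) : RFin (base N) := by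
  have h1 : RFin (N ⊓ (1 : Language α)ᶜ) := hN.inf RFin.one.compl
  have h2 : base N = (N ⊓ (1 : Language α)ᶜ) ⊓
      ((N ⊓ (1 : Language α)ᶜ) * (N ⊓ (1 : Language α)ᶜ))ᶜ := by
    ext y
    constructor
    · rintro ⟨hy, hy0, hy1⟩
      refine ⟨⟨hy, hy0⟩, ?_⟩
      intro hmem
      have hmem' : y ∈ (N ⊓ (1 : Language α)ᶜ) * (N ⊓ (1 : Language α)ᶜ) := hmem
      rw [Language.mem_mul] at hmem'
      obtain ⟨a, ha, b, hb, hab⟩ := hmem'
      rcases hy1 a b ha.1 hb.1 hab.symm with h | h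
      · exact ha.2 h
      · exact hb.2 h
    · rintro ⟨⟨hy, hy0⟩, hy1⟩
      refine ⟨hy, hy0, fun a b ha hb hab => ?_⟩
      by_contra hcon
      push Not at hcon
      apply hy1
      show y ∈ (N ⊓ (1 : Language α)ᶜ) * (N ⊓ (1 : Language α)ᶜ)
      rw [Language.mem_mul]
      exact ⟨a, ⟨ha, hcon.1⟩, b, ⟨hb, hcon.2⟩, hab.symm⟩
  rw [h2]
  exact h1.inf (h1.mul h1).compl

/-! ### windows -/

/-- The data for the completion: `K` is a set of left windows and `Λ` a set of right windows. -/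
structure Windows (X K Λ : Language α) : Prop where
  kne : ∃ κ, κ ∈ K
  lne : ∃ l, l ∈ Λ
  kX : ∀ κ ∈ K, κ ∈ X∗
  lX : ∀ l ∈ Λ, l ∈ X∗
  /-- an occurrence of a left window in a message synchronizes on both sides -/
  k1 : ∀ κ ∈ K, ∀ u v : List α, u ++ κ ++ v ∈ X∗ → u ++ κ ∈ X∗ ∧ κ ++ v ∈ X∗
  k2 : ∀ x ∈ X∗, ∀ κ ∈ K, ∃ κ' ∈ K, ∃ s, x ++ κ = κ' ++ s
  k3 : ∀ κ ∈ K, ∀ u v : List α, u ++ κ ++ v ∉ X
  /-- an occurrence of a right window in a message synchronizes to the left -/
  l1 : ∀ l ∈ Λ, ∀ u v : List α, u ++ l ++ v ∈ X∗ → u ++ l ∈ X∗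
  l2 : ∀ l ∈ Λ, ∀ x ∈ X∗, ∃ l' ∈ Λ, ∃ s, l ++ x = s ++ l'

/-- words starting with a left window and ending with a right window -/
def win (K Λ : Language α) : Language α :=
  {w | (∃ κ ∈ K, ∃ s, w = κ ++ s) ∧ ∃ l ∈ Λ, ∃ s, w = s ++ l}

/-- the completed submonoid -/
def cpl (X K Λ : Language α) : Language α := {w | w ∈ X∗ ∨ w ∈ win K Λ}

variable {X K Λ : Language α}

theorem mem_cpl {w : List α} : w ∈ cpl X K Λ ↔ w ∈ X∗ ∨ w ∈ win K Λ := Iff.rfl

theorem nil_mem_cpl : [] ∈ cpl X K Λ := Or.inl (Language.nil_mem_kstar _)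

theorem Windows.cpl_mul (W : Windows X K Λ) : ∀ a ∈ cpl X K Λ, ∀ b ∈ cpl X K Λ,
    a ++ b ∈ cpl X K Λ := by
  rintro a (ha | ⟨⟨κ, hκ, s, hs⟩, l, hl, s', hs'⟩) b (hb | ⟨⟨κ2, hκ2, t, ht⟩, l2, hl2, t', ht'⟩)
  · exact Or.inl (star_append ha hb)
  · right
    obtain ⟨κ', hκ', r, hr⟩ := W.k2 a ha κ2 hκ2
    refine ⟨⟨κ', hκ', r ++ t, ?_⟩, l2, hl2, a ++ t', by rw [ht', List.append_assoc]⟩
    rw [ht, ← List.append_assoc, hr, List.append_assoc]
  · right
    obtain ⟨l', hl', r, hr⟩ := W.l2 l hl b hb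
    refine ⟨⟨κ, hκ, s ++ b, by rw [hs, List.append_assoc]⟩, l', hl', s' ++ r, ?_⟩
    rw [hs', List.append_assoc, hr, List.append_assoc]
  · right
    refine ⟨⟨κ, hκ, s ++ b, by rw [hs, List.append_assoc]⟩, l2, hl2, a ++ t', ?_⟩
    rw [ht', List.append_assoc]

/-- `w` is a suffix of a word ending with a right window, seen in context -/
theorem Windows.left_ctx (W : Windows X K Λ) {u : List α} (hu : u ∈ cpl X K Λ) {l0 : List α}
    (hl0 : l0 ∈ Λ) : ∃ l ∈ Λ, ∃ s, l0 ++ u = s ++ l := by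
  rcases hu with hu | ⟨_, l, hl, s, hs⟩
  · exact W.l2 l0 hl0 u hu
  · exact ⟨l, hl, l0 ++ s, by rw [hs, List.append_assoc]⟩

theorem Windows.right_ctx (W : Windows X K Λ) {v : List α} (hv : v ∈ cpl X K Λ) {κ0 : List α}
    (hκ0 : κ0 ∈ K) : ∃ κ ∈ K, ∃ s, v ++ κ0 = κ ++ s := by
  rcases hv with hv | ⟨⟨κ, hκ, s, hs⟩, _⟩
  · exact W.k2 v hv κ0 hκ0
  · exact ⟨κ, hκ, s ++ κ0, by rw [hs, List.append_assoc]⟩

/-- The key lemma. -/
theorem Windows.key (hX : IsCode X) (W : Windows X K Λ) {α0 a w α' l β' κ β0 μ : List α}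
    (ha : a ∈ Λ) (hl : l ∈ Λ) (hκ : κ ∈ K) (hμ : μ ∈ K)
    (h1 : (α0 ++ a) ++ w = α' ++ l) (h2 : w ++ (μ ++ β0) = κ ++ β') : w ∈ cpl X K Λ := by
  rcases List.append_eq_append_iff.1 h2 with ⟨γ, hγ1, hγ2⟩ | ⟨w', hw1, hw2⟩
  · -- κ = w ++ γ, μ ++ β0 = γ ++ β'
    left
    -- find a word `u0` of `X*` such that `u0 w ∈ X*`
    have hu0 : ∃ u0 ∈ X∗, u0 ++ w ∈ X∗ := by
      rw [List.append_assoc] at h1
      rcases List.append_eq_append_iff.1 h1 with ⟨c, hc1, hc2⟩ | ⟨c, hc1, hc2⟩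
      · -- α' = α0 ++ c, a ++ w = c ++ l
        refine ⟨a, W.lX a ha, ?_⟩
        have h3 : c ++ l ++ γ ∈ X∗ := by
          rw [← hc2, List.append_assoc, ← hγ1]
          exact star_append (W.lX a ha) (W.kX κ hκ)
        rw [hc2]
        exact W.l1 l hl c γ h3
      · -- α0 = α' ++ c, l = c ++ (a ++ w)
        have h3 : c ++ a ++ w ∈ X∗ := by
          rw [List.append_assoc, ← hc2]; exact W.lX l hl
        exact ⟨c ++ a, W.l1 a ha c w h3, h3⟩
    obtain ⟨u0, hu0, hu0w⟩ := hu0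
    have hwμ : w ++ μ ∈ X∗ := by
      rcases List.append_eq_append_iff.1 hγ2 with ⟨γ', hg1, hg2⟩ | ⟨μ', hg1, hg2⟩
      · -- γ = μ ++ γ'
        have h3 : w ++ μ ++ γ' ∈ X∗ := by
          rw [List.append_assoc, ← hg1, ← hγ1]; exact W.kX κ hκ
        exact (W.k1 μ hμ w γ' h3).1
      · -- μ = γ ++ μ'
        have h3 : u0 ++ κ ++ μ' ∈ X∗ := by
          have : u0 ++ κ ++ μ' = (u0 ++ w) ++ μ := by
            rw [hγ1, hg1]; simp [List.append_assoc]
          rw [this]
          exact star_append hu0w (W.kX μ hμ)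
        have h4 := (W.k1 κ hκ u0 μ' h3).2
        have : w ++ μ = κ ++ μ' := by
          rw [hγ1, hg1]; simp [List.append_assoc]
        rw [this]
        exact h4
    exact hX.stable hu0 (W.kX μ hμ) hu0w hwμ
  · -- w = κ ++ w'
    rcases List.append_eq_append_iff.1 h1 with ⟨c, hc1, hc2⟩ | ⟨c, hc1, hc2⟩
    · -- α' = (α0 ++ a) ++ c, w = c ++ l
      exact Or.inr ⟨⟨κ, hκ, w', hw1⟩, l, hl, c, hc2⟩
    · -- α0 ++ a = α' ++ c, l = c ++ w
      left
      have h3 : c ++ κ ++ w' ∈ X∗ := by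
        rw [List.append_assoc, ← hw1, ← hc2]; exact W.lX l hl
      rw [hw1]
      exact (W.k1 κ hκ c w' h3).2

theorem Windows.stable (hX : IsCode X) (W : Windows X K Λ) (u v w : List α)
    (hu : u ∈ cpl X K Λ) (hv : v ∈ cpl X K Λ) (huw : u ++ w ∈ cpl X K Λ)
    (hwv : w ++ v ∈ cpl X K Λ) : w ∈ cpl X K Λ := by
  obtain ⟨l0, hl0⟩ := W.lne
  obtain ⟨κ0, hκ0⟩ := W.kne
  obtain ⟨a, ha, α0, h1⟩ := W.left_ctx hu hl0
  obtain ⟨l, hl, α', h2⟩ := W.left_ctx huw hl0
  obtain ⟨μ, hμ, β0, h3⟩ := W.right_ctx hv hκ0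
  obtain ⟨κ, hκ, β', h4⟩ := W.right_ctx hwv hκ0
  refine W.key hX ha hl hκ hμ (α0 := α0) (α' := α') (β0 := β0) (β' := β') ?_ ?_
  · rw [← h1, ← h2, List.append_assoc]
  · rw [← h3, ← h4, List.append_assoc]

theorem Windows.le_base (hX : IsCode X) (W : Windows X K Λ) : X ≤ base (cpl X K Λ) := by
  intro x hx
  refine ⟨Or.inl (star_base hx), ?_, ?_⟩
  · rintro rfl; exact hX.nil_notMem hx
  · rintro a b (ha | ⟨⟨κ, hκ, s, hs⟩, _⟩) (hb | ⟨⟨κ2, hκ2, t, ht⟩, _⟩) hab
    · exact hX.irred ha hb (hab ▸ hx)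
    · exfalso
      apply W.k3 κ2 hκ2 a t
      rw [List.append_assoc, ← ht, ← hab]; exact hx
    · exfalso
      apply W.k3 κ hκ [] (s ++ b)
      rw [List.nil_append, ← List.append_assoc, ← hs, ← hab]; exact hx
    · exfalso
      apply W.k3 κ hκ [] (s ++ b)
      rw [List.nil_append, ← List.append_assoc, ← hs, ← hab]; exact hx

theorem Windows.isCode (hX : IsCode X) (W : Windows X K Λ) : IsCode (base (cpl X K Λ)) :=
  base_isCode nil_mem_cpl W.cpl_mul (W.stable hX)

theorem Windows.star (W : Windows X K Λ) : (base (cpl X K Λ))∗ = cpl X K Λ :=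
  base_star nil_mem_cpl W.cpl_mul

/-- every word can be completed -/
theorem win_dense {κ l : List α} (hκ : κ ∈ K) (hl : l ∈ Λ)
    (w : List α) : κ ++ w ++ l ∈ cpl X K Λ :=
  Or.inr ⟨⟨κ, hκ, w ++ l, by rw [List.append_assoc]⟩, l, hl, κ ++ w, rfl⟩

theorem Windows.maximal (hX : IsCode X) (W : Windows X K Λ) (Z : Language α) (hZ : IsCode Z)
    (hYZ : base (cpl X K Λ) ≤ Z) : Z = base (cpl X K Λ) := by
  apply Set.eq_of_subset_of_subset _ hYZ
  intro z hz
  obtain ⟨κ, hκ⟩ := W.kne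
  obtain ⟨l, hl⟩ := W.lne
  have h1 : κ ++ z ++ l ∈ (base (cpl X K Λ))∗ := by
    rw [W.star]; exact win_dense hκ hl z
  have h2 := W.kX κ hκ
  have h3 := W.lX l hl
  rw [Language.mem_kstar] at h1 h2 h3
  obtain ⟨m, hm1, hm2⟩ := h1
  obtain ⟨mk, hk1, hk2⟩ := h2
  obtain ⟨ml, hl1, hl2⟩ := h3
  have hXY := W.le_base hX
  have h4 : m = mk ++ [z] ++ ml := by
    apply hZ
    · intro x hx; exact hYZ (hm2 x hx)
    · intro x hx
      simp only [List.append_assoc, List.mem_append, List.mem_singleton] at hx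
      rcases hx with hx | rfl | hx
      · exact hYZ (hXY (hk2 x hx))
      · exact hz
      · exact hYZ (hXY (hl2 x hx))
    · rw [← hm1, hk1, hl1]; simp [List.append_assoc]
  exact hm2 z (by rw [h4]; simp)

theorem windows_rfin (hX : RFin X) (hK : RFin K) (hΛ : RFin Λ) : RFin (base (cpl X K Λ)) := by
  apply base_rfin
  have h1 : cpl X K Λ = X∗ ⊔ ((K * (⊤ : Language α)) ⊓ ((⊤ : Language α) * Λ)) := by
    ext w
    constructor
    · rintro (h | ⟨⟨κ, hκ, s, hs⟩, l, hl, s', hs'⟩)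
      · exact Or.inl h
      · right
        refine ⟨?_, ?_⟩
        · show w ∈ K * (⊤ : Language α)
          rw [Language.mem_mul]; exact ⟨κ, hκ, s, trivial, hs.symm⟩
        · show w ∈ (⊤ : Language α) * Λ
          rw [Language.mem_mul]; exact ⟨s', trivial, l, hl, hs'.symm⟩
    · rintro (h | ⟨h, h'⟩)
      · exact Or.inl h
      · right
        have h2 : w ∈ K * (⊤ : Language α) := h
        have h3 : w ∈ (⊤ : Language α) * Λ := h'
        rw [Language.mem_mul] at h2 h3
        obtain ⟨κ, hκ, s, -, hs⟩ := h2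
        obtain ⟨s', -, l, hl, hs'⟩ := h3
        exact ⟨⟨κ, hκ, s, hs.symm⟩, l, hl, s', hs'.symm⟩
  rw [h1]
  exact hX.star.sup ((hK.mul RFin.top).inf (RFin.top.mul hΛ))

end Pool.Agent.Helper609_SD
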