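import Mathlib

/-! # Closure properties of regular languages, through the Nerode relation -/

namespace Pool.Agent.Helper609_SD

variable {α : Type}

/-- syntactic equivalence of words -/
def SE (L : Language α) (w w' : List α) : Prop :=
  ∀ s t : List α, s ++ w ++ t ∈ L ↔ s ++ w' ++ t ∈ L

/-- right (Nerode) equivalence of words -/
def RE (L : Language α) (s s' : List α) : Prop :=
  ∀ t : List α, s ++ t ∈ L ↔ s' ++ t ∈ L

theorem SE.symm {L : Language α} {w w' : List α} (h : SE L w w') : SE L w' w :=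
  fun s t => (h s t).symm

theorem SE.trans {L : Language α} {u v w : List α} (h : SE L u v) (h' : SE L v w) : SE L u w :=
  fun s t => (h s t).trans (h' s t)

theorem SE.left {L : Language α} {w w' : List α} (h : SE L w w') (u : List α) :
    SE L (u ++ w) (u ++ w') := by
  intro s t
  have := h (s ++ u) t
  simpa [List.append_assoc] using this

theorem SE.right {L : Language α} {w w' : List α} (h : SE L w w') (u : List α) :
    SE L (w ++ u) (w' ++ u) := by
  intro s t
  have := h s (u ++ t)
  simpa [List.append_assoc] using this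

theorem RE.symm {L : Language α} {w w' : List α} (h : RE L w w') : RE L w' w :=
  fun t => (h t).symm

theorem RE.trans {L : Language α} {u v w : List α} (h : RE L u v) (h' : RE L v w) : RE L u w :=
  fun t => (h t).trans (h' t)

theorem RE.right {L : Language α} {s s' : List α} (h : RE L s s') (u : List α) :
    RE L (s ++ u) (s' ++ u) := by
  intro t
  have := h (u ++ t)
  simpa [List.append_assoc] using this

/-- finitely many classes for the right equivalence -/
def RFin (L : Language α) : Prop :=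
  ∃ (M : Type) (_ : Finite M) (g : List α → M), ∀ u u', g u = g u' → RE L u u'

/-- finitely many classes for the syntactic equivalence -/
def SFin (L : Language α) : Prop :=
  ∃ (M : Type) (_ : Finite M) (g : List α → M), ∀ u u', g u = g u' → SE L u u'

theorem RFin.sFin {L : Language α} (h : RFin L) : SFin L := by
  classical
  obtain ⟨M, hM, g, hg⟩ := h
  let rep : M → List α := fun m => if hm : ∃ s, g s = m then hm.choose else []
  have hrep : ∀ s, g (rep (g s)) = g s := by
    intro s
    have hm : ∃ s', g s' = g s := ⟨s, rfl⟩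
    simp only [rep, dif_pos hm]
    exact hm.choose_spec
  refine ⟨M → M, inferInstance, fun w m => g (rep m ++ w), ?_⟩
  intro w w' hww s t
  have h1 : RE L (rep (g s)) s := hg _ _ (hrep s)
  have h2 : RE L (rep (g s) ++ w) (rep (g s) ++ w') := hg _ _ (congrFun hww (g s))
  have h3 := (h1.right w).symm.trans (h2.trans (h1.right w'))
  exact h3 t

theorem RFin.isRegular {L : Language α} (h : RFin L) : L.IsRegular := by
  classical
  obtain ⟨M, hM, g, hg⟩ := h
  apply Language.IsRegular.of_finite_range_leftQuotient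
  let F : Set.range g → Language α := fun m => L.leftQuotient m.2.choose
  have : Set.range L.leftQuotient ⊆ Set.range F := by
    rintro _ ⟨u, rfl⟩
    refine ⟨⟨g u, ⟨u, rfl⟩⟩, ?_⟩
    have hm : ∃ s', g s' = g u := ⟨u, rfl⟩
    have h1 : g hm.choose = g u := hm.choose_spec
    ext t
    exact hg _ _ h1 t
  exact (Set.finite_range F).subset this

theorem RFin.of_isRegular {L : Language α} (h : L.IsRegular) : RFin L := by
  obtain ⟨σ, _, M, rfl⟩ := h
  refine ⟨σ, inferInstance, M.eval, fun u u' h t => ?_⟩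
  have key : ∀ v : List α, M.eval (v ++ t) = M.evalFrom (M.eval v) t := fun v =>
    M.evalFrom_of_append _ v t
  rw [DFA.mem_accepts, DFA.mem_accepts, key, key, h]

theorem RFin.zero : RFin (0 : Language α) :=
  ⟨Unit, inferInstance, fun _ => (), fun _ _ _ t => by simp [Language.notMem_zero]⟩

theorem RFin.one : RFin (1 : Language α) := by
  classical
  refine ⟨Bool, inferInstance, fun u => decide (u = []), fun u u' h t => ?_⟩
  have h' : (u = []) ↔ (u' = []) := by
    by_cases h1 : u = [] <;> by_cases h2 : u' = [] <;> simp_all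
  simp only [Language.mem_one, List.append_eq_nil_iff, h']

theorem RFin.compl {L : Language α} (h : RFin L) : RFin Lᶜ := by
  obtain ⟨M, hM, g, hg⟩ := h
  exact ⟨M, hM, g, fun u u' h t => not_congr (hg u u' h t)⟩

theorem RFin.sup {L K : Language α} (h : RFin L) (h' : RFin K) : RFin (L ⊔ K) := by
  obtain ⟨M, hM, g, hg⟩ := h
  obtain ⟨M', hM', g', hg'⟩ := h'
  refine ⟨M × M', inferInstance, fun u => (g u, g' u), fun u u' h t => ?_⟩
  exact or_congr (hg u u' (congrArg Prod.fst h) t) (hg' u u' (congrArg Prod.snd h) t)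

theorem RFin.inf {L K : Language α} (h : RFin L) (h' : RFin K) : RFin (L ⊓ K) := by
  obtain ⟨M, hM, g, hg⟩ := h
  obtain ⟨M', hM', g', hg'⟩ := h'
  refine ⟨M × M', inferInstance, fun u => (g u, g' u), fun u u' h t => ?_⟩
  exact and_congr (hg u u' (congrArg Prod.fst h) t) (hg' u u' (congrArg Prod.snd h) t)

theorem RFin.top : RFin (⊤ : Language α) :=
  ⟨Unit, inferInstance, fun _ => (), fun _ _ _ _ => ⟨fun _ => trivial, fun _ => trivial⟩⟩

/-- a single word -/
theorem RFin.word (w : List α) : RFin ({w} : Language α) := by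
  classical
  refine ⟨Option {u : List α // u ∈ w.inits}, inferInstance,
    fun u => if h : u ∈ w.inits then some ⟨u, h⟩ else none, fun u u' h t => ?_⟩
  have key : ∀ u : List α, u ++ t ∈ ({w} : Language α) → u ∈ w.inits := by
    intro u hu
    have hu' : u ++ t = w := hu
    rw [List.mem_inits, ← hu']
    exact List.prefix_append _ _
  by_cases h1 : u ∈ w.inits
  · by_cases h2 : u' ∈ w.inits
    · have h3 : u = u' := by simpa [h1, h2] using h
      rw [h3]
    · simp [h1, h2] at h
  · by_cases h2 : u' ∈ w.inits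
    · simp [h1, h2] at h
    · exact ⟨fun h3 => absurd (key _ h3) h1, fun h3 => absurd (key _ h3) h2⟩

theorem RFin.mul {L K : Language α} (h : RFin L) (h' : RFin K) : RFin (L * K) := by
  classical
  obtain ⟨M, hM, g, hg⟩ := h
  obtain ⟨M', hM', g', hg'⟩ := h'
  refine ⟨M × Set M', inferInstance,
    fun u => (g u, {m | ∃ u1 u2, u = u1 ++ u2 ∧ u1 ∈ L ∧ g' u2 = m}), ?_⟩
  have key : ∀ u u' : List α, g u = g u' →
      {m | ∃ u1 u2, u = u1 ++ u2 ∧ u1 ∈ L ∧ g' u2 = m} =
      {m | ∃ u1 u2, u' = u1 ++ u2 ∧ u1 ∈ L ∧ g' u2 = m} →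
      ∀ t, u ++ t ∈ L * K → u' ++ t ∈ L * K := by
    intro u u' h1 h2 t ht
    rw [Language.mem_mul] at ht ⊢
    obtain ⟨p, hp, q, hq, hpq⟩ := ht
    rcases List.append_eq_append_iff.1 hpq with ⟨c, hc1, hc2⟩ | ⟨c, hc1, hc2⟩
    · have hmem : g' c ∈ {m | ∃ u1 u2, u = u1 ++ u2 ∧ u1 ∈ L ∧ g' u2 = m} :=
        ⟨p, c, hc1, hp, rfl⟩
      rw [h2] at hmem
      obtain ⟨u1, u2, e1, e2, e3⟩ := hmem
      refine ⟨u1, e2, u2 ++ t, ?_, ?_⟩
      · have := hg' _ _ e3 t
        rw [this, ← hc2]
        exact hq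
      · rw [e1, List.append_assoc]
    · refine ⟨u' ++ c, ?_, q, hq, ?_⟩
      · have := hg _ _ h1 c
        rw [← this, ← hc1]
        exact hp
      · rw [hc2, List.append_assoc]
  intro u u' h t
  have h1 := congrArg Prod.fst h
  have h2 := congrArg Prod.snd h
  exact ⟨key u u' h1 h2 t, key u' u h1.symm h2.symm t⟩

theorem star_append {K : Language α} {u v : List α} (hu : u ∈ KStar.kstar K)
    (hv : v ∈ KStar.kstar K) : u ++ v ∈ KStar.kstar K := by
  rw [Language.mem_kstar] at hu hv ⊢
  obtain ⟨l, hl, hm⟩ := hu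
  obtain ⟨l', hl', hm'⟩ := hv
  refine ⟨l ++ l', by simp [hl, hl'], ?_⟩
  intro y hy
  rcases List.mem_append.1 hy with hy | hy
  · exact hm y hy
  · exact hm' y hy

theorem star_base {K : Language α} {u : List α} (hu : u ∈ K) : u ∈ KStar.kstar K := by
  rw [Language.mem_kstar]
  exact ⟨[u], by simp, by simpa using hu⟩

/-- A word of `K*` seen from a cut position: either the position is a boundary, or it is inside
a factor. -/
theorem star_split {K : Language α} {u t : List α} (h : u ++ t ∈ KStar.kstar K) :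
    (u ∈ KStar.kstar K ∧ t ∈ KStar.kstar K) ∨
    ∃ u1 u2 t1 t2, u = u1 ++ u2 ∧ t = t1 ++ t2 ∧ u1 ∈ KStar.kstar K ∧ u2 ++ t1 ∈ K ∧
      t2 ∈ KStar.kstar K := by
  rw [Language.mem_kstar] at h
  obtain ⟨l, hl, hmem⟩ := h
  induction l generalizing u with
  | nil =>
    left
    simp only [List.flatten_nil, List.append_eq_nil_iff] at hl
    rw [hl.1, hl.2]
    exact ⟨Language.nil_mem_kstar _, Language.nil_mem_kstar _⟩
  | cons k l ih =>
    rw [List.flatten_cons] at hl
    have hk : k ∈ K := hmem k (by simp)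
    have hl' : l.flatten ∈ KStar.kstar K :=
      Language.join_mem_kstar (fun y hy => hmem y (by simp [hy]))
    rcases List.append_eq_append_iff.1 hl with ⟨c, hc1, hc2⟩ | ⟨c, hc1, hc2⟩
    · right
      exact ⟨[], u, c, l.flatten, by simp, hc2, Language.nil_mem_kstar _, by rw [← hc1]; exact hk,
        hl'⟩
    · rcases ih hc2.symm (fun y hy => hmem y (by simp [hy])) with ⟨h1, h2⟩ |
        ⟨u1, u2, t1, t2, e1, e2, e3, e4, e5⟩
      · left
        refine ⟨?_, h2⟩
        rw [hc1]
        exact star_append (star_base hk) h1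
      · right
        refine ⟨k ++ u1, u2, t1, t2, ?_, e2, ?_, e4, e5⟩
        · rw [hc1, e1, List.append_assoc]
        · exact star_append (star_base hk) e3

theorem RFin.star {K : Language α} (h : RFin K) : RFin (KStar.kstar K) := by
  classical
  obtain ⟨M, hM, g, hg⟩ := h
  refine ⟨Prop × Set M, inferInstance,
    fun u => (u ∈ KStar.kstar K, {m | ∃ u1 u2, u = u1 ++ u2 ∧ u1 ∈ KStar.kstar K ∧ g u2 = m}), ?_⟩
  have key : ∀ u u' : List α, (u ∈ KStar.kstar K) = (u' ∈ KStar.kstar K) →
      {m | ∃ u1 u2, u = u1 ++ u2 ∧ u1 ∈ KStar.kstar K ∧ g u2 = m} =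
      {m | ∃ u1 u2, u' = u1 ++ u2 ∧ u1 ∈ KStar.kstar K ∧ g u2 = m} →
      ∀ t, u ++ t ∈ KStar.kstar K → u' ++ t ∈ KStar.kstar K := by
    intro u u' h1 h2 t ht
    rcases star_split ht with ⟨a1, a2⟩ | ⟨u1, u2, t1, t2, e1, e2, e3, e4, e5⟩
    · rw [h1] at a1
      exact star_append a1 a2
    · have hmem : g u2 ∈ {m | ∃ u1 u2, u = u1 ++ u2 ∧ u1 ∈ KStar.kstar K ∧ g u2 = m} :=
        ⟨u1, u2, e1, e3, rfl⟩
      rw [h2] at hmem
      obtain ⟨v1, v2, f1, f2, f3⟩ := hmem
      have h4 : v2 ++ t1 ∈ K := (hg _ _ f3 t1).2 e4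
      have : u' ++ t = v1 ++ ((v2 ++ t1) ++ t2) := by
        rw [f1, e2]; simp [List.append_assoc]
      rw [this]
      exact star_append f2 (star_append (star_base h4) e5)
  intro u u' h t
  have h1 := congrArg Prod.fst h
  have h2 := congrArg Prod.snd h
  exact ⟨key u u' h1 h2 t, key u' u h1.symm h2.symm t⟩

theorem RFin.pow {L : Language α} (h : RFin L) (n : ℕ) : RFin (L ^ n) := by
  induction n with
  | zero => rw [pow_zero]; exact RFin.one
  | succ n ih => rw [pow_succ]; exact ih.mul h

end Pool.Agent.Helper609_SD
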